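import Pool.Agent.Work.MP_2738db_nt_Y.Interface
import Pool.Agent.Work.MP_2738db_nt_U_helper93.Det

set_option autoImplicit false

/-!
ARQ: two logarithms theorem for a positive rational and a positive integer (adapted from helper93).
-/

namespace Pool.Agent.Work.MP_2738db_nt_Y.helper45

open Finset BigOperators Polynomial
open Pool.Agent.Work.MP_2738db_nt_W (zero_core bp bp_eval bp_natDegree bp_indep exists_minor
  sum_weights_ge choose_bound log_le_tenth)
open Pool.Agent.Work.MP_2738db_nt_U.helper93 (pert_det_le)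

/-- Zero estimate (rational base). -/
theorem zero_estQ {K L R S : ℕ} (X1 : ℚ) (Y1 k₀ ℓ : ℕ) (hX : X1 ≠ 0) (hY : 2 ≤ Y1)
    (hcop : Nat.Coprime ℓ k₀) (hR : R ≤ ℓ) (hKL : K * L ≤ R * S) (hK : 1 ≤ K) (hL : 1 ≤ L)
    (c : Fin K × Fin L → ℚ)
    (h : ∀ r < R, ∀ t < S + L,
      ∑ i : Fin K × Fin L, c i * ((Nat.choose (r * k₀ + t * ℓ) i.1 : ℚ) * (X1 ^ r * (Y1 : ℚ) ^ t) ^ (i.2 : ℕ)) = 0) :
    c = 0 := by
  classical
  by_contra hc
  let J : Finset (Fin L) := univ.filter (fun l => ∃ k, c (k, l) ≠ 0)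
  have hJ : 0 < J.card := by
    rw [Finset.card_pos]
    obtain ⟨⟨k, l⟩, hkl⟩ := Function.ne_iff.mp hc
    exact ⟨l, by simp only [J, mem_filter, mem_univ, true_and]; exact ⟨k, hkl⟩⟩
  let e : Fin J.card ≃ J := J.equivFin.symm
  have hJL : J.card ≤ L := by
    have := Finset.card_le_univ J
    simpa using this
  let P : Fin J.card → ℚ[X] := fun j => ∑ k : Fin K, C (c (k, (e j : Fin L))) * bp k
  have hfilt : ∀ l : Fin L, l ∉ J → ∀ k, c (k, l) = 0 := by
    intro l hl k
    by_contra h1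
    exact hl (by simp only [J, mem_filter, mem_univ, true_and]; exact ⟨k, h1⟩)
  apply zero_core hJ (fun j => ((e j : Fin L) : ℕ)) (by
      intro i j hij
      apply e.injective
      apply Subtype.ext
      exact Fin.ext hij) P (by
      intro j h0
      have h1 := bp_indep _ h0
      have h2 := (e j).2
      simp only [J, mem_filter, mem_univ, true_and] at h2
      obtain ⟨k, hk⟩ := h2
      exact hk (h1 k)) (K - 1) (by
      intro j
      apply Polynomial.natDegree_sum_le_of_forall_le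
      intro k _
      refine (Polynomial.natDegree_C_mul_le _ _).trans ((bp_natDegree _).trans ?_)
      have := k.2
      omega) (Y1 : ℚ) (by exact_mod_cast hY) ℓ
      (τ := ℕ × ℕ) (range R ×ˢ range S) (fun t => t.1 * k₀ + t.2 * ℓ) ?_
      (fun t => X1 ^ t.1 * (Y1 : ℚ) ^ t.2) ?_ ?_ ?_
  · rintro ⟨r, s⟩ hrs ⟨r', s'⟩ hrs' heq
    simp only [coe_product, coe_range, Set.mem_prod, Set.mem_Iio] at hrs hrs' heq
    have hℓ : 0 < ℓ := by omega
    have h1 : r = r' := by
      have h2 : (r * k₀) % ℓ = (r' * k₀) % ℓ := by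
        have := congrArg (fun z => z % ℓ) heq
        simpa [Nat.add_mul_mod_self_right] using this
      have h3 : r ≡ r' [MOD ℓ] := Nat.ModEq.cancel_right_of_coprime hcop h2
      have h4 := Nat.ModEq.eq_of_lt_of_lt h3 (by omega) (by omega)
      exact h4
    subst h1
    have h5 : s * ℓ = s' * ℓ := by omega
    have h6 := Nat.eq_of_mul_eq_mul_right hℓ h5
    rw [h6]
  · intro t _
    have h1 : X1 ≠ 0 := hX
    have h2 : (Y1 : ℚ) ≠ 0 := by exact_mod_cast (by omega : Y1 ≠ 0)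
    exact mul_ne_zero (pow_ne_zero _ h1) (pow_ne_zero _ h2)
  · rw [card_product, card_range, card_range]
    calc (K - 1) * J.card ≤ (K - 1) * L := Nat.mul_le_mul_left _ hJL
      _ < K * L := Nat.mul_lt_mul_of_pos_right (by omega) hL
      _ ≤ R * S := hKL
  · rintro ⟨r, s⟩ hrs t
    simp only [mem_product, mem_range] at hrs
    have h1 := h r hrs.1 (s + t) (by have := t.2; omega)
    rw [Fintype.sum_prod_type_right] at h1
    rw [← h1]
    have h2 : ∑ l : Fin L, ∑ k : Fin K, c (k, l) * ((Nat.choose (r * k₀ + (s + (t : ℕ)) * ℓ) k : ℚ) * (X1 ^ r * (Y1 : ℚ) ^ (s + (t : ℕ))) ^ (l : ℕ))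
        = ∑ l ∈ J, ∑ k : Fin K, c (k, l) * ((Nat.choose (r * k₀ + (s + (t : ℕ)) * ℓ) k : ℚ) * (X1 ^ r * (Y1 : ℚ) ^ (s + (t : ℕ))) ^ (l : ℕ)) := by
      symm
      apply Finset.sum_subset (Finset.subset_univ _)
      intro l _ hl
      apply Finset.sum_eq_zero
      intro k _
      rw [hfilt l hl k, zero_mul]
    simp only at h2 ⊢
    rw [h2, ← Finset.sum_coe_sort J, ← Equiv.sum_comp e]
    apply Finset.sum_congr rfl
    intro j _
    have h3 : ((r * k₀ + s * ℓ : ℕ) : ℚ) + (t : ℕ) * ℓ = ((r * k₀ + (s + (t : ℕ)) * ℓ : ℕ) : ℚ) := by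
      push_cast; ring
    rw [h3]
    simp only [P, Polynomial.eval_finsetSum, Polynomial.eval_mul, Polynomial.eval_C, bp_eval]
    rw [Finset.sum_mul]
    apply Finset.sum_congr rfl
    intro k _
    rw [pow_add]
    ring

/-- the Archimedean determinant inequality, rational base `X / X₂` -/
theorem coreQ {X X₂ Y k₀ ℓ K L R S Z : ℕ}
    (hX0 : 1 ≤ X) (hX2 : 1 ≤ X₂) (hY0 : 2 ≤ Y) (hcop : Nat.Coprime ℓ k₀) (hℓ : 1 ≤ ℓ)
    (hR : R ≤ ℓ) (hKL : K * L ≤ R * S) (hK : 1 ≤ K) (hL : 1 ≤ L)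
    (hZ : R * k₀ + (S + L) * ℓ ≤ Z) (B : ℝ) (hB : ∀ k < K, ∀ z ≤ Z, (Nat.choose z k : ℝ) ≤ B)
    (lam w W h : ℝ) (hw : w = Real.log Y / ℓ)
    (hlam : Real.log X - Real.log X₂ = k₀ * w + lam) (hh : Real.log X₂ ≤ h)
    (hsm : |lam| * (L * R) * 2 ^ (K * L + 1) ≤ 1) (hwL : L * w ≤ 1) (hW : Z * w ≤ W) :
    2 ^ (K * K * ∑ l ∈ range L, l) ≤ ((K * L).factorial * (2 * B) ^ (K * L)) *
      Real.exp ((K * ∑ l ∈ range L, l : ℕ) * (K * w + 4 * W)) *
      Real.exp ((K * L : ℕ) * (R * (L * h))) := by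
  classical
  have hXpos : (0 : ℝ) < X := by exact_mod_cast hX0
  have hX2pos : (0 : ℝ) < X₂ := by exact_mod_cast hX2
  have hYpos : (0 : ℝ) < Y := by exact_mod_cast (by omega : 0 < Y)
  have hX2Q : (X₂ : ℚ) ≠ 0 := by exact_mod_cast (by omega : X₂ ≠ 0)
  have hℓpos : (0 : ℝ) < ℓ := by exact_mod_cast hℓ
  have hw0 : 0 ≤ w := by
    rw [hw]
    apply div_nonneg _ hℓpos.le
    exact Real.log_nonneg (by exact_mod_cast (by omega : 1 ≤ Y))
  have hYw : Real.log Y = ℓ * w := by rw [hw]; field_simp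
  have hW0 : 0 ≤ W := le_trans (by positivity) hW
  let zz : Fin R × Fin (S + L) → ℕ := fun t => (t.1 : ℕ) * k₀ + (t.2 : ℕ) * ℓ
  have hzz : ∀ t, zz t ≤ Z := by
    intro t
    have h1 : (t.1 : ℕ) * k₀ ≤ R * k₀ := Nat.mul_le_mul_right _ t.1.2.le
    have h2 : (t.2 : ℕ) * ℓ ≤ (S + L) * ℓ := Nat.mul_le_mul_right _ t.2.2.le
    simp only [zz]; omega
  let A : Matrix (Fin K × Fin L) (Fin R × Fin (S + L)) ℤ := Matrix.of fun i t =>
    (Nat.choose (zz t) i.1 : ℤ) * ((X : ℤ) ^ (t.1 : ℕ) * (Y : ℤ) ^ (t.2 : ℕ)) ^ (i.2 : ℕ) *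
      (X₂ : ℤ) ^ ((t.1 : ℕ) * (L - 1 - (i.2 : ℕ)))
  obtain ⟨g, hg⟩ := exists_minor (A.map (Int.castRingHom ℚ)) (by
    intro c hc
    apply zero_estQ ((X : ℚ) / X₂) Y k₀ ℓ (div_ne_zero (by exact_mod_cast (by omega : X ≠ 0)) hX2Q)
      hY0 hcop hR hKL hK hL c
    intro r hr t ht
    have h0 := hc (⟨r, hr⟩, ⟨t, ht⟩)
    have h1 : (X₂ : ℚ) ^ (r * (L - 1)) ≠ 0 := pow_ne_zero _ hX2Q
    apply mul_left_cancel₀ h1
    rw [mul_zero, ← h0, Finset.mul_sum]
    apply Finset.sum_congr rfl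
    intro i _
    have h2 : (X₂ : ℚ) ^ (r * (L - 1)) = (X₂ : ℚ) ^ (r * (L - 1 - (i.2 : ℕ))) * ((X₂ : ℚ) ^ r) ^ (i.2 : ℕ) := by
      rw [← pow_mul, ← pow_add, ← Nat.mul_add]
      congr 2
      have := i.2.2
      omega
    rw [h2]
    simp only [A, zz, Matrix.map_apply, Matrix.of_apply, map_mul, map_pow, map_natCast, div_pow, mul_pow]
    field_simp)
  have hdet : (A.submatrix id g).det ≠ 0 := by
    intro h0
    apply hg
    have h1 : (A.map (Int.castRingHom ℚ)).submatrix id g = (A.submatrix id g).map (Int.castRingHom ℚ) := rfl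
    rw [h1, ← RingHom.mapMatrix_apply, ← RingHom.map_det, h0, map_zero]
  -- the real main matrix
  let u : Fin K × Fin L → ℝ := fun i => Real.exp ((i.2 : ℕ) * w)
  have hu1 : ∀ i, 1 ≤ u i := fun i => Real.one_le_exp (by positivity)
  let Mn : Matrix (Fin K × Fin L) (Fin K × Fin L) ℝ := Matrix.of fun i j =>
    (Nat.choose (zz (g j)) (i.1 : ℕ) : ℝ) * u i ^ (zz (g j))
  let AR : Matrix (Fin K × Fin L) (Fin K × Fin L) ℝ := (A.submatrix id g).map (Int.castRingHom ℝ)
  have hAR : AR.det = ((A.submatrix id g).det : ℝ) := by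
    simp only [AR]
    rw [← RingHom.mapMatrix_apply, ← RingHom.map_det]
    rfl
  have hone : 1 ≤ |AR.det| := by
    rw [hAR]
    have h1 : (1 : ℤ) ≤ |(A.submatrix id g).det| := Int.one_le_abs hdet
    exact_mod_cast h1
  let N : Matrix (Fin K × Fin L) (Fin K × Fin L) ℝ := Matrix.of fun i j =>
    Mn i j * Real.exp (lam * ((i.2 : ℕ) * ((g j).1 : ℕ)))
  let sc : Fin K × Fin L → ℝ := fun j => (X₂ : ℝ) ^ (((g j).1 : ℕ) * (L - 1))
  have hlogX : Real.log X = Real.log X₂ + (k₀ * w + lam) := by linarith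
  have hentry : ∀ i j, AR i j = sc j * N i j := by
    intro i j
    have h2 : sc j = (X₂ : ℝ) ^ (((g j).1 : ℕ) * (L - 1 - (i.2 : ℕ))) *
        ((X₂ : ℝ) ^ ((g j).1 : ℕ)) ^ (i.2 : ℕ) := by
      simp only [sc]
      rw [← pow_mul, ← pow_add, ← Nat.mul_add]
      congr 2
      have := i.2.2
      omega
    have h3 : ((X : ℝ) ^ ((g j).1 : ℕ) * (Y : ℝ) ^ ((g j).2 : ℕ)) ^ (i.2 : ℕ) =
        ((X₂ : ℝ) ^ ((g j).1 : ℕ)) ^ (i.2 : ℕ) * (u i ^ (zz (g j)) *
          Real.exp (lam * ((i.2 : ℕ) * ((g j).1 : ℕ)))) := by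
      simp only [u]
      rw [← Real.exp_nat_mul, ← Real.exp_add]
      rw [← Real.exp_log hXpos, ← Real.exp_log hYpos, ← Real.exp_log hX2pos, ← Real.exp_nat_mul,
        ← Real.exp_nat_mul, ← Real.exp_nat_mul, ← Real.exp_add, ← Real.exp_nat_mul,
        ← Real.exp_nat_mul, ← Real.exp_add]
      congr 1
      rw [hlogX, hYw]
      simp only [zz]
      push_cast
      ring
    rw [h2]
    simp only [AR, N, Mn, A, Matrix.map_apply, Matrix.submatrix_apply, Matrix.of_apply, id_eq, map_mul,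
      map_pow, map_natCast]
    rw [h3]
    ring
  have hcard : Fintype.card (Fin K × Fin L) = K * L := by simp
  have hBnn : 0 ≤ B := le_trans (by positivity) (hB 0 (by omega) 0 (by omega))
  have hsumG : ∑ i : Fin K × Fin L, ((i.2 : ℕ) : ℕ) = K * ∑ l ∈ range L, l := by
    rw [Fintype.sum_prod_type]
    simp only [Finset.sum_const, Finset.card_univ, Fintype.card_fin, smul_eq_mul]
    rw [Fin.sum_univ_eq_sum_range (fun k => k) L]
  have hprodexp : ∀ c : ℝ, ∏ i : Fin K × Fin L, Real.exp ((i.2 : ℕ) * c)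
      = Real.exp ((K * ∑ l ∈ range L, l : ℕ) * c) := by
    intro c
    rw [← Real.exp_sum, ← Finset.sum_mul]
    congr 2
    rw [← hsumG]
    push_cast; rfl
  have hLR0 : (0 : ℝ) ≤ |lam| * (L * R) := by positivity
  have h2pow : (1 : ℝ) ≤ 2 ^ (K * L + 1) := one_le_pow₀ (by norm_num)
  have hsm1 : |lam| * (L * R) ≤ 1 := by
    refine le_trans ?_ hsm
    exact le_mul_of_one_le_right hLR0 h2pow
  -- one row
  have hrow : ∀ i : Fin K × Fin L, (Nat.choose Z (i.1 : ℕ) : ℝ) * u i ^ (i.1 : ℕ) *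
      (1 + 2 * (u i - 1)) ^ Z ≤ B * Real.exp ((i.2 : ℕ) * (K * w + 4 * W)) := by
    intro i
    have hui := hu1 i
    have h3 : u i ^ (i.1 : ℕ) ≤ Real.exp ((i.2 : ℕ) * (K * w)) := by
      simp only [u]
      rw [← Real.exp_nat_mul]
      apply Real.exp_le_exp.mpr
      have h5 : ((i.1 : ℕ) : ℝ) ≤ K := by exact_mod_cast i.1.2.le
      have h6 : 0 ≤ ((i.2 : ℕ) : ℝ) * w := by positivity
      calc ((i.1 : ℕ) : ℝ) * (((i.2 : ℕ) : ℝ) * w) ≤ K * (((i.2 : ℕ) : ℝ) * w) :=
            mul_le_mul_of_nonneg_right h5 h6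
        _ = _ := by ring
    have h4 : (1 + 2 * (u i - 1)) ^ Z ≤ Real.exp ((i.2 : ℕ) * (4 * W)) := by
      have h5 : u i - 1 ≤ 2 * ((i.2 : ℕ) * w) := by
        have h6 : |((i.2 : ℕ) : ℝ) * w| ≤ 1 := by
          rw [abs_of_nonneg (by positivity)]
          have h7 : ((i.2 : ℕ) : ℝ) ≤ L := by exact_mod_cast i.2.2.le
          exact (mul_le_mul_of_nonneg_right h7 hw0).trans hwL
        have h7 := Real.abs_exp_sub_one_le h6
        have h8 := (le_abs_self _).trans h7
        rw [abs_of_nonneg (by positivity)] at h8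
        exact h8
      calc (1 + 2 * (u i - 1)) ^ Z ≤ (Real.exp (2 * (u i - 1))) ^ Z := by
            apply pow_le_pow_left₀ (by linarith)
            rw [add_comm]
            exact Real.add_one_le_exp _
        _ = Real.exp (Z * (2 * (u i - 1))) := by rw [← Real.exp_nat_mul]
        _ ≤ Real.exp ((i.2 : ℕ) * (4 * W)) := by
            apply Real.exp_le_exp.mpr
            have hZ0 : (0 : ℝ) ≤ Z := by positivity
            calc (Z : ℝ) * (2 * (u i - 1)) ≤ Z * (2 * (2 * ((i.2 : ℕ) * w))) := by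
                  apply mul_le_mul_of_nonneg_left _ hZ0
                  linarith
              _ = ((i.2 : ℕ) * 4) * (Z * w) := by ring
              _ ≤ ((i.2 : ℕ) * 4) * W := mul_le_mul_of_nonneg_left hW (by positivity)
              _ = _ := by ring
    have h5 : (Nat.choose Z (i.1 : ℕ) : ℝ) ≤ B := hB _ i.1.2 Z le_rfl
    have h6 : Real.exp ((i.2 : ℕ) * (K * w + 4 * W))
        = Real.exp ((i.2 : ℕ) * (K * w)) * Real.exp ((i.2 : ℕ) * (4 * W)) := by
      rw [← Real.exp_add]; congr 1; ring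
    rw [h6, ← mul_assoc]
    apply mul_le_mul _ h4 (by have : 0 ≤ 1 + 2 * (u i - 1) := by linarith
                              positivity) (by positivity)
    apply mul_le_mul h5 h3 (by have : 0 ≤ u i := by linarith
                               positivity) hBnn
  have hMn : ∀ i j, Mn i j ≤ B * Real.exp ((i.2 : ℕ) * W) := by
    intro i j
    simp only [Mn, Matrix.of_apply]
    apply mul_le_mul (hB _ i.1.2 _ (hzz (g j))) _ (by
      have : 0 ≤ u i := by linarith [hu1 i]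
      positivity) hBnn
    simp only [u]
    rw [← Real.exp_nat_mul]
    apply Real.exp_le_exp.mpr
    have h3 : ((zz (g j) : ℕ) : ℝ) * w ≤ W := by
      refine le_trans ?_ hW
      apply mul_le_mul_of_nonneg_right _ hw0
      exact_mod_cast hzz (g j)
    calc ((zz (g j) : ℕ) : ℝ) * ((i.2 : ℕ) * w) = (i.2 : ℕ) * (((zz (g j) : ℕ) : ℝ) * w) := by ring
      _ ≤ _ := mul_le_mul_of_nonneg_left h3 (by positivity)
  have hMn0 : ∀ i j, 0 ≤ Mn i j := by
    intro i j
    simp only [Mn, Matrix.of_apply]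
    have : 0 ≤ u i := by linarith [hu1 i]
    positivity
  have hE : ∀ i j, |Mn i j * (Real.exp (lam * ((i.2 : ℕ) * ((g j).1 : ℕ))) - 1)| ≤
      (B * Real.exp ((i.2 : ℕ) * W)) * (2 * (|lam| * (L * R))) := by
    intro i j
    have h4 : |lam * (((i.2 : ℕ) : ℝ) * ((g j).1 : ℕ))| ≤ |lam| * (L * R) := by
      rw [abs_mul]
      apply mul_le_mul_of_nonneg_left _ (abs_nonneg _)
      rw [abs_of_nonneg (by positivity)]
      apply mul_le_mul _ _ (by positivity) (by positivity)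
      · exact_mod_cast i.2.2.le
      · exact_mod_cast (g j).1.2.le
    have h5 := Real.abs_exp_sub_one_le (h4.trans hsm1)
    rw [abs_mul, abs_of_nonneg (hMn0 i j)]
    apply mul_le_mul (hMn i j) _ (abs_nonneg _) (mul_nonneg hBnn (Real.exp_pos _).le)
    linarith
  have hNdet : N.det = (Matrix.of fun i j => (Nat.choose (zz (g j)) (i.1 : ℕ) : ℝ) * u i ^ (zz (g j)) +
      Mn i j * (Real.exp (lam * ((i.2 : ℕ) * ((g j).1 : ℕ))) - 1)).det := by
    congr 1
    funext i j
    simp only [N, Mn, Matrix.of_apply]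
    ring
  have hARdet : AR.det = (∏ j, sc j) * N.det := by
    rw [← Matrix.det_mul_row]
    congr 1
    funext i j
    rw [hentry i j, Matrix.of_apply]
  have hsc0 : ∀ j, 0 ≤ sc j := fun j => by
    simp only [sc]
    positivity
  have hh0 : 0 ≤ h := (Real.log_nonneg (by exact_mod_cast hX2)).trans hh
  have hscprod : ∏ j, sc j ≤ Real.exp ((K * L : ℕ) * (R * (L * h))) := by
    have h1 : ∏ j, sc j ≤ ∏ _j : Fin K × Fin L, Real.exp (R * (L * h)) := by
      apply Finset.prod_le_prod (fun j _ => hsc0 j)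
      intro j _
      simp only [sc]
      rw [← Real.exp_log hX2pos, ← Real.exp_nat_mul]
      apply Real.exp_le_exp.mpr
      have h2 : (((g j).1 : ℕ) : ℝ) ≤ R := by exact_mod_cast (g j).1.2.le
      have h3 : ((L - 1 : ℕ) : ℝ) ≤ L := by exact_mod_cast Nat.sub_le L 1
      have h4 : 0 ≤ Real.log X₂ := Real.log_nonneg (by exact_mod_cast hX2)
      push_cast
      calc (((g j).1 : ℕ) : ℝ) * ((L - 1 : ℕ) : ℝ) * Real.log X₂
          = (((g j).1 : ℕ) : ℝ) * (((L - 1 : ℕ) : ℝ) * Real.log X₂) := by ring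
        _ ≤ R * (L * h) := by
          apply mul_le_mul h2 _ (by positivity) (by positivity)
          exact mul_le_mul h3 hh h4 (by positivity)
    refine h1.trans (le_of_eq ?_)
    rw [Finset.prod_const, ← Real.exp_nat_mul]
    congr 2
    simp
  have hmain := pert_det_le Z (K * K * ∑ l ∈ range L, l) (fun i : Fin K × Fin L => (i.1 : ℕ)) u
      (fun j => zz (g j)) (fun j => hzz (g j)) hu1 (by
        rw [hcard, Fintype.sum_prod_type]
        simp only [Finset.sum_const, Finset.card_univ, Fintype.card_fin, smul_eq_mul]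
        rw [← Finset.mul_sum, Fin.sum_univ_eq_sum_range (fun k => k) K]
        have h1 := Finset.sum_range_id_mul_two L
        have h2 := Finset.sum_range_id_mul_two K
        rw [Nat.le_div_iff_mul_le (by norm_num)]
        obtain ⟨L', rfl⟩ : ∃ L', L = L' + 1 := ⟨L - 1, by omega⟩
        obtain ⟨K', rfl⟩ : ∃ K', K = K' + 1 := ⟨K - 1, by omega⟩
        simp only [Nat.add_sub_cancel] at h1 h2
        have h3 : (K' + 1) * (L' + 1) - 1 = K' * L' + K' + L' := by
          have : (K' + 1) * (L' + 1) = K' * L' + K' + L' + 1 := by ring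
          omega
        rw [h3]
        nlinarith [h1, h2])
      (fun i j => Mn i j * (Real.exp (lam * ((i.2 : ℕ) * ((g j).1 : ℕ))) - 1))
      (fun i => (B * Real.exp ((i.2 : ℕ) * W)) * (2 * (|lam| * (L * R)))) hE
  rw [← hNdet, hcard] at hmain
  have h2pos : (0 : ℝ) < 2 ^ (K * K * ∑ l ∈ range L, l) := by positivity
  have h3 : (2 : ℝ) ^ (K * K * ∑ l ∈ range L, l) ≤ |AR.det| * 2 ^ (K * K * ∑ l ∈ range L, l) :=
    le_mul_of_one_le_left h2pos.le hone
  have h3' : |AR.det| * 2 ^ (K * K * ∑ l ∈ range L, l) ≤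
      Real.exp ((K * L : ℕ) * (R * (L * h))) * (|N.det| * 2 ^ (K * K * ∑ l ∈ range L, l)) := by
    rw [hARdet, abs_mul, abs_of_nonneg (Finset.prod_nonneg fun j _ => hsc0 j), mul_assoc]
    exact mul_le_mul_of_nonneg_right hscprod (by positivity)
  refine h3.trans (h3'.trans ?_)
  rw [mul_comm]
  apply mul_le_mul_of_nonneg_right _ (Real.exp_pos _).le
  refine hmain.trans ?_
  rw [mul_assoc]
  apply mul_le_mul_of_nonneg_left _ (by positivity)
  have h4 : ∏ i : Fin K × Fin L, ((Nat.choose Z (i.1 : ℕ) : ℝ) * u i ^ (i.1 : ℕ) *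
      (1 + 2 * (u i - 1)) ^ Z +
      2 ^ (K * L) * ((B * Real.exp ((i.2 : ℕ) * W)) * (2 * (|lam| * (L * R)))))
      ≤ ∏ i : Fin K × Fin L, ((2 * B) * Real.exp ((i.2 : ℕ) * (K * w + 4 * W))) := by
    apply Finset.prod_le_prod
    · intro i _
      have := hu1 i
      have h5 : 0 ≤ u i := by linarith
      have h6 : 0 ≤ 1 + 2 * (u i - 1) := by linarith
      positivity
    · intro i _
      have h5 : (2 : ℝ) ^ (K * L) * ((B * Real.exp ((i.2 : ℕ) * W)) * (2 * (|lam| * (L * R)))) =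
          (B * Real.exp ((i.2 : ℕ) * W)) * (|lam| * (L * R) * 2 ^ (K * L + 1)) := by
        rw [pow_succ]; ring
      have h6 : (B * Real.exp ((i.2 : ℕ) * W)) * (|lam| * (L * R) * 2 ^ (K * L + 1)) ≤
          B * Real.exp ((i.2 : ℕ) * W) :=
        mul_le_of_le_one_right (mul_nonneg hBnn (Real.exp_pos _).le) hsm
      have h7 : Real.exp ((i.2 : ℕ) * W) ≤ Real.exp ((i.2 : ℕ) * (K * w + 4 * W)) := by
        apply Real.exp_le_exp.mpr
        apply mul_le_mul_of_nonneg_left _ (by positivity)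
        have : 0 ≤ (K : ℝ) * w := by positivity
        linarith
      have h8 : B * Real.exp ((i.2 : ℕ) * W) ≤ B * Real.exp ((i.2 : ℕ) * (K * w + 4 * W)) :=
        mul_le_mul_of_nonneg_left h7 hBnn
      have h9 := hrow i
      rw [h5]
      linarith
  refine h4.trans (le_of_eq ?_)
  rw [Finset.prod_mul_distrib, hprodexp, Finset.prod_const, Finset.card_univ, hcard]

/-- ARQ -/
theorem arq : Stmt_Arq := by
  refine ⟨10 ^ 8, by norm_num, ?_⟩
  intro X X₂ Y k₀ ℓ A B hX0 hX2 hY0 hk0 hℓ hcop hA hB hXA hX2A hYB hk hℓB'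
  by_contra hcon
  rw [not_le] at hcon
  have hℓ1 : (1 : ℝ) ≤ ℓ := by exact_mod_cast hℓ
  set lam : ℝ := 1 + Real.log ℓ with hlam
  have hlam1 : 1 ≤ lam := by have := Real.log_nonneg hℓ1; linarith
  have hℓB : 30000 * B * lam ≤ ℓ := by
    have h0 : 0 ≤ B * lam := by positivity
    have h1 : (10 : ℝ) ^ 8 * B * lam = 10 ^ 8 * (B * lam) := by ring
    rw [h1] at hℓB'
    have h2 : 30000 * B * lam = 30000 * (B * lam) := by ring
    rw [h2]
    linarith
  set L : ℕ := ⌈60 * lam⌉₊ with hLdef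
  have hL1 : 60 * lam ≤ L := Nat.le_ceil _
  have hL2 : (L : ℝ) ≤ 61 * lam := by
    have := Nat.ceil_lt_add_one (show 0 ≤ 60 * lam by linarith)
    rw [← hLdef] at this
    linarith
  have hL60 : (60 : ℝ) ≤ L := by linarith
  set K : ℕ := ⌈10 ^ 4 * L * A * B⌉₊ with hKdef
  have hA0 : 0 ≤ A := by linarith
  have hB0 : 0 ≤ B := by linarith
  have hLnn : (0 : ℝ) ≤ L := Nat.cast_nonneg _
  have hAB : 1 ≤ A * B := one_le_mul_of_one_le_of_one_le hA hB
  have hK1 : 10 ^ 4 * L * A * B ≤ K := Nat.le_ceil _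
  have hK2 : (K : ℝ) ≤ 10 ^ 4 * L * A * B + 1 := by
    have := Nat.ceil_lt_add_one (show 0 ≤ 10 ^ 4 * L * A * B by positivity)
    rw [← hKdef] at this
    linarith
  set R : ℕ := ⌈100 * L * B⌉₊ + 1 with hRdef
  have hR1 : 100 * L * B + 1 ≤ R := by
    rw [hRdef]; push_cast
    have := Nat.le_ceil (100 * L * B)
    linarith
  have hR2 : (R : ℝ) ≤ 100 * L * B + 2 := by
    rw [hRdef]; push_cast
    have := Nat.ceil_lt_add_one (show 0 ≤ 100 * L * B by positivity)
    linarith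
  set S : ℕ := ⌈100 * L * A⌉₊ with hSdef
  have hS1 : 100 * L * A ≤ S := Nat.le_ceil _
  have hS2 : (S : ℝ) ≤ 100 * L * A + 1 := by
    have := Nat.ceil_lt_add_one (show 0 ≤ 100 * L * A by positivity)
    rw [← hSdef] at this
    linarith
  set q : ℝ := L * (A * B) with hq
  have hLq : (L : ℝ) ≤ q := by rw [hq]; exact le_mul_of_one_le_right hLnn hAB
  have hLA : (L : ℝ) * A ≤ q := by
    rw [hq, ← mul_assoc]
    exact le_mul_of_one_le_right (mul_nonneg hLnn hA0) hB
  have hLB : (L : ℝ) * B ≤ q := by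
    rw [hq, mul_comm A B, ← mul_assoc]
    exact le_mul_of_one_le_right (mul_nonneg hLnn hB0) hA
  have hAq : 60 * A ≤ q := (mul_le_mul_of_nonneg_right hL60 hA0).trans hLA
  have hBq : 60 * B ≤ q := (mul_le_mul_of_nonneg_right hL60 hB0).trans hLB
  have hq60 : 60 ≤ q := by linarith
  have hKq : 10 ^ 4 * q ≤ K := by rw [hq]; linarith [hK1]
  have hK0 : 1 ≤ K := by
    have : (1 : ℝ) ≤ K := by linarith
    exact_mod_cast this
  have hL0 : 1 ≤ L := by
    have : (1 : ℝ) ≤ L := by linarith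
    exact_mod_cast this
  -- conditions
  have hBlam : 1 ≤ B * lam := one_le_mul_of_one_le_of_one_le hB hlam1
  have hRℓ : R ≤ ℓ := by
    have h1 : (R : ℝ) ≤ ℓ := by
      have h2 : 100 * B * L ≤ 100 * B * (61 * lam) :=
        mul_le_mul_of_nonneg_left hL2 (by linarith)
      have h3 : 100 * B * (61 * lam) = 6100 * (B * lam) := by ring
      have h4 : 30000 * B * lam = 30000 * (B * lam) := by ring
      rw [h4] at hℓB
      have h5 : 100 * L * B = 100 * B * L := by ring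
      rw [h5] at hR2
      linarith
    exact_mod_cast h1
  have hKLab : (K : ℝ) * L ≤ (10 ^ 4 * L * A * B + 1) * L := mul_le_mul_of_nonneg_right hK2 hLnn
  have hKL : K * L ≤ R * S := by
    have h1 : (K : ℝ) * L ≤ R * S := by
      refine hKLab.trans ?_
      have h2 : (100 * L * B + 1) * (100 * L * A) ≤ R * S :=
        mul_le_mul hR1 hS1 (by positivity) (by positivity)
      refine le_trans ?_ h2
      have h3 : (100 * L * B + 1) * (100 * L * A) = (10 ^ 4 * L * A * B) * L + 100 * (L * A) := by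
        ring
      have h4 : (L : ℝ) ≤ L * A := le_mul_of_one_le_right hLnn hA
      rw [h3, add_mul, one_mul]
      linarith
    exact_mod_cast h1
  have hZ : R * k₀ + (S + L) * ℓ ≤ K * ℓ := by
    have h1 : (R : ℝ) * k₀ + (S + L) * ℓ ≤ K * ℓ := by
      have h2 : (R : ℝ) * k₀ ≤ (100 * L * B + 2) * A * ℓ := by
        calc (R : ℝ) * k₀ ≤ (100 * L * B + 2) * (A * ℓ) :=
              mul_le_mul hR2 hk (by positivity) (by positivity)
          _ = _ := by ring
      have h3 : (100 * L * B + 2) * A + (S + L) ≤ K := by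
        have h4 : (100 * L * B + 2) * A = 100 * q + 2 * A := by rw [hq]; ring
        have h5 : 100 * L * A = 100 * (L * A) := by ring
        rw [h4]
        rw [h5] at hS2
        linarith
      have h4 := mul_le_mul_of_nonneg_right h3 (show (0 : ℝ) ≤ ℓ by linarith)
      rw [add_mul] at h4
      linarith
    exact_mod_cast h1
  have hKL' : (K : ℝ) * L ≤ 4 * 10 ^ 7 * A * B * lam ^ 2 := by
    have h1 : (10 ^ 4 * L * A * B + 1) * L ≤ (10 ^ 4 + 1) * L ^ 2 * (A * B) := by
      have h2 : (10 ^ 4 + 1) * (L : ℝ) ^ 2 * (A * B) =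
          (10 ^ 4 * L * A * B) * L + L * (L * (A * B)) := by ring
      have h3 : (L : ℝ) * 1 ≤ L * (L * (A * B)) :=
        mul_le_mul_of_nonneg_left (by linarith) hLnn
      rw [h2, add_mul]
      linarith
    have h4 : (L : ℝ) ^ 2 ≤ (61 * lam) ^ 2 := pow_le_pow_left₀ hLnn hL2 2
    have h5 : (10 ^ 4 + 1) * (L : ℝ) ^ 2 * (A * B) ≤ (10 ^ 4 + 1) * (61 * lam) ^ 2 * (A * B) :=
      mul_le_mul_of_nonneg_right (mul_le_mul_of_nonneg_left h4 (by norm_num)) (by linarith)
    have h6 : (10 ^ 4 + 1) * (61 * lam) ^ 2 * (A * B) = 37213721 * ((A * B) * lam ^ 2) := by ring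
    have h7 : 4 * 10 ^ 7 * A * B * lam ^ 2 = 40000000 * ((A * B) * lam ^ 2) := by ring
    have h8 : 0 ≤ (A * B) * lam ^ 2 := by positivity
    rw [h7]
    linarith
  have hK0' : (0 : ℝ) < K := by exact_mod_cast hK0
  have hL0' : (0 : ℝ) < L := by exact_mod_cast hL0
  set Q : ℝ := (K * L) ^ 2 with hQ
  have hKL100 : (36 * 10 ^ 6 : ℝ) ≤ K * L := by
    calc (36 * 10 ^ 6 : ℝ) = (10 ^ 4 * 60) * 60 := by norm_num
      _ ≤ K * L := by
        apply mul_le_mul _ hL60 (by norm_num) hK0'.le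
        linarith
  have hQ100 : (10 ^ 6 : ℝ) ≤ Q := by
    rw [hQ, sq]
    have := mul_le_mul hKL100 hKL100 (by norm_num) (by positivity)
    linarith
  -- the logarithmic form
  set w : ℝ := Real.log Y / ℓ with hw
  have hℓpos : (0 : ℝ) < ℓ := by linarith
  have hXpos : (0 : ℝ) < X := by exact_mod_cast (by omega : 0 < X)
  have hYpos : (0 : ℝ) < Y := by exact_mod_cast (by omega : 0 < Y)
  have hlogY0 : 0 ≤ Real.log Y := Real.log_nonneg (by exact_mod_cast (by omega : 1 ≤ Y))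
  have hw0 : 0 ≤ w := div_nonneg hlogY0 hℓpos.le
  have hYw : Real.log Y = ℓ * w := by rw [hw]; field_simp
  have hlogX20 : 0 ≤ Real.log X₂ := Real.log_nonneg (by exact_mod_cast (by omega : 1 ≤ X₂))
  set lm : ℝ := Real.log X - Real.log X₂ - k₀ * w with hlm
  have hLam : ℓ * (Real.log X - Real.log X₂) - k₀ * Real.log Y = ℓ * lm := by rw [hlm, hYw]; ring
  have hlmsmall : |lm| < Real.exp (-(5 / 2 * (K * L))) := by
    have h1 : |lm| ≤ |ℓ * (Real.log X - Real.log X₂) - k₀ * Real.log Y| := by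
      rw [hLam, abs_mul, abs_of_pos hℓpos]
      exact le_mul_of_one_le_left (abs_nonneg _) hℓ1
    refine h1.trans_lt (hcon.trans_le ?_)
    apply Real.exp_le_exp.mpr
    have h2 : 5 / 2 * ((K : ℝ) * L) ≤ 5 / 2 * (4 * 10 ^ 7 * A * B * lam ^ 2) :=
      mul_le_mul_of_nonneg_left hKL' (by norm_num)
    have h3 : 5 / 2 * (4 * 10 ^ 7 * A * B * lam ^ 2) = 10 ^ 8 * (A * B) * lam ^ 2 := by ring
    linarith
  have hRK : (R : ℝ) ≤ K := by linarith
  have hKL1 : (1 : ℝ) ≤ K * L := by linarith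
  have hpow2 : (2 : ℝ) ^ (K * L + 1) ≤ 2 * Real.exp (7 / 10 * (K * L)) := by
    have h1 : (2 : ℝ) ^ (K * L) = Real.exp ((K * L : ℕ) * Real.log 2) := by
      rw [Real.exp_nat_mul, Real.exp_log (by norm_num)]
    rw [pow_succ, mul_comm, h1]
    apply mul_le_mul_of_nonneg_left _ (by norm_num)
    apply Real.exp_le_exp.mpr
    push_cast
    have h2 := Real.log_two_lt_d9
    have h3 : (K : ℝ) * L * Real.log 2 ≤ K * L * (7 / 10) :=
      mul_le_mul_of_nonneg_left (by linarith) (by positivity)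
    linarith
  have hδ : |lm| * ((L : ℝ) * R) * 2 ^ (K * L + 1) ≤ 1 := by
    have h1 : (L : ℝ) * R ≤ K * L := by
      calc (L : ℝ) * R ≤ L * K := mul_le_mul_of_nonneg_left hRK (by positivity)
        _ = _ := by ring
    have h2 : (K : ℝ) * L ≤ Real.exp (K * L) := by
      have := Real.add_one_le_exp ((K : ℝ) * L)
      linarith
    have h3 : |lm| * ((L : ℝ) * R) ≤ Real.exp (-(5 / 2 * (K * L))) * Real.exp (K * L) :=
      mul_le_mul hlmsmall.le (h1.trans h2) (by positivity) (Real.exp_pos _).le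
    have h4 : |lm| * ((L : ℝ) * R) * 2 ^ (K * L + 1) ≤
        (Real.exp (-(5 / 2 * (K * L))) * Real.exp (K * L)) * (2 * Real.exp (7 / 10 * (K * L))) :=
      mul_le_mul h3 hpow2 (by positivity) (by positivity)
    refine h4.trans ?_
    have h5 : (Real.exp (-(5 / 2 * (K * L))) * Real.exp (K * L)) * (2 * Real.exp (7 / 10 * (K * L)))
        = 2 * Real.exp (-(8 / 10 * ((K : ℝ) * L))) := by
      have h6 : Real.exp (-(8 / 10 * ((K : ℝ) * L))) =
          Real.exp (-(5 / 2 * (K * L))) * Real.exp (K * L) * Real.exp (7 / 10 * (K * L)) := by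
        rw [← Real.exp_add, ← Real.exp_add]
        congr 1
        ring
      rw [h6]
      ring
    rw [h5, Real.exp_neg, ← div_eq_mul_inv, div_le_one (Real.exp_pos _)]
    have h7 := Real.add_one_le_exp (8 / 10 * ((K : ℝ) * L))
    linarith
  -- the exponent part
  have hexp : (R : ℝ) * Real.log X + (S + L) * Real.log Y ≤ K * (21 / 1000) := by
    have h1 : (R : ℝ) * Real.log X ≤ (100 * L * B + 2) * A :=
      (mul_le_mul_of_nonneg_left hXA (by positivity)).trans (mul_le_mul_of_nonneg_right hR2 (by linarith))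
    have h2 : ((S : ℝ) + L) * Real.log Y ≤ (100 * L * A + 1 + L) * B :=
      (mul_le_mul_of_nonneg_left hYB (by positivity)).trans (mul_le_mul_of_nonneg_right (by linarith) (by linarith))
    have h3 : (100 * L * B + 2) * A = 100 * q + 2 * A := by rw [hq]; ring
    have h4 : (100 * L * A + 1 + L) * B = 100 * q + B + L * B := by rw [hq]; ring
    rw [h3] at h1
    rw [h4] at h2
    linarith
  have hRlm : (R : ℝ) * |lm| ≤ 1 := by
    refine le_trans ?_ hδ
    have h1 : (1 : ℝ) ≤ L * 2 ^ (K * L + 1) :=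
      one_le_mul_of_one_le_of_one_le (by linarith) (one_le_pow₀ (by norm_num))
    calc (R : ℝ) * |lm| ≤ (R * |lm|) * (L * 2 ^ (K * L + 1)) :=
          le_mul_of_one_le_right (by positivity) h1
      _ = _ := by ring
  have hW : ((R * k₀ + (S + L) * ℓ : ℕ) : ℝ) * w ≤ K * (22 / 1000) := by
    push_cast
    have h1 : ((R : ℝ) * k₀ + (S + L) * ℓ) * w =
        R * Real.log X + (S + L) * Real.log Y - R * lm - R * Real.log X₂ := by
      rw [hlm, hYw]; ring
    have h1' : 0 ≤ R * Real.log X₂ := by positivity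
    rw [h1]
    have h2 : -(R * lm) ≤ (R : ℝ) * |lm| := by
      rw [← mul_neg]
      exact mul_le_mul_of_nonneg_left (neg_le_abs lm) (by positivity)
    linarith
  have hwsmall : w ≤ 1 / 30000 := by
    rw [hw, div_le_div_iff₀ hℓpos (by norm_num)]
    have h1 : B * 1 ≤ B * lam := mul_le_mul_of_nonneg_left hlam1 hB0
    have h4 : 30000 * B * lam = 30000 * (B * lam) := by ring
    rw [h4] at hℓB
    linarith
  have hwL : (L : ℝ) * w ≤ 1 := by
    rw [hw, ← mul_div_assoc, div_le_one hℓpos]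
    calc (L : ℝ) * Real.log Y ≤ (61 * lam) * B :=
          mul_le_mul hL2 hYB hlogY0 (by linarith)
      _ ≤ ℓ := by
          have h1 : 61 * lam * B = 61 * (B * lam) := by ring
          have h4 : 30000 * B * lam = 30000 * (B * lam) := by ring
          rw [h4] at hℓB
          linarith
  have hcore := coreQ (by omega : 1 ≤ X) hX2 hY0 hcop hℓ hRℓ hKL hK0 hL0 le_rfl (Real.exp K * (ℓ : ℝ) ^ K)
    (fun k hk z hz => choose_bound hK0 hℓ hk (hz.trans hZ)) lm w (K * (22 / 1000)) A rfl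
    (by rw [hlm]; ring) hX2A hδ hwL hW
  set G : ℕ := ∑ l ∈ range L, l with hG
  have hG2 : (G : ℝ) * 2 = L * (L - 1) := by
    have h1 := Finset.sum_range_id_mul_two L
    rw [← hG] at h1
    have h2 : ((G * 2 : ℕ) : ℝ) = ((L * (L - 1) : ℕ) : ℝ) := by rw [h1]
    push_cast [Nat.cast_sub hL0] at h2
    exact h2
  have hG3 : (49 / 100 : ℝ) * L ^ 2 ≤ G := by
    have h1 : (60 : ℝ) * L ≤ L * L := mul_le_mul_of_nonneg_right hL60 hLnn
    have h2 : (L : ℝ) ^ 2 = L * L := sq _
    have h3 : (L : ℝ) * (L - 1) = L * L - L := by ring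
    rw [h3] at hG2
    rw [h2]
    linarith
  have hG4 : (G : ℝ) ≤ 1 / 2 * L ^ 2 := by
    have h2 : (L : ℝ) ^ 2 = L * L := sq _
    have h3 : (L : ℝ) * (L - 1) = L * L - L := by ring
    rw [h3] at hG2
    rw [h2]
    linarith
  have hG0 : (0 : ℝ) ≤ G := by positivity
  -- the factor F
  have hF : ((K * L).factorial : ℝ) * (Real.exp K * (ℓ : ℝ) ^ K) ^ (K * L) ≤ Real.exp (7 / 60 * Q) := by
    rw [← Real.log_le_iff_le_exp (by positivity)]
    rw [Real.log_mul (by positivity) (by positivity), Real.log_pow,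
      Real.log_mul (Real.exp_pos _).ne' (by positivity), Real.log_exp, Real.log_pow]
    have hfac : Real.log ((K * L).factorial : ℝ) ≤ (K * L : ℝ) * Real.log (K * L) := by
      have h1 : (((K * L).factorial : ℕ) : ℝ) ≤ ((K * L : ℕ) : ℝ) ^ (K * L) := by
        exact_mod_cast Nat.factorial_le_pow (K * L)
      have h2 := Real.log_le_log (by positivity) h1
      rw [Real.log_pow] at h2
      push_cast at h2
      exact h2
    have hmid : ((K * L : ℕ) : ℝ) * (K + K * Real.log ℓ) ≤ Q / 60 := by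
      have h1 : (K : ℝ) + K * Real.log ℓ = K * lam := by rw [hlam]; ring
      rw [h1]
      push_cast
      have h2 : lam ≤ L / 60 := by linarith
      calc (K : ℝ) * L * (K * lam) = (K * K * L) * lam := by ring
        _ ≤ (K * K * L) * (L / 60) := mul_le_mul_of_nonneg_left h2 (by positivity)
        _ = _ := by rw [hQ]; ring
    have hfac2 : (K * L : ℝ) * Real.log (K * L) ≤ Q / 10 := by
      have h2 := log_le_tenth (show (100 : ℝ) ≤ K * L by linarith)
      calc (K * L : ℝ) * Real.log (K * L) ≤ (K * L : ℝ) * ((K * L) / 10) :=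
            mul_le_mul_of_nonneg_left h2 (by positivity)
        _ = _ := by rw [hQ]; ring
    linarith
  have hF0 : (0 : ℝ) ≤ ((K * L).factorial : ℝ) * (Real.exp K * (ℓ : ℝ) ^ K) ^ (K * L) := by positivity
  have hKKG1 : (49 / 100) * Q ≤ (K : ℝ) * K * G := by
    rw [hQ]
    calc (49 / 100 : ℝ) * ((K : ℝ) * L) ^ 2 = (K : ℝ) * K * ((49 / 100) * L ^ 2) := by ring
      _ ≤ (K : ℝ) * K * G := mul_le_mul_of_nonneg_left hG3 (by positivity)
  have hKKG2 : (K : ℝ) * K * G ≤ 1 / 2 * Q := by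
    rw [hQ]
    calc (K : ℝ) * K * G ≤ K * K * (1 / 2 * L ^ 2) := mul_le_mul_of_nonneg_left hG4 (by positivity)
      _ = 1 / 2 * ((K : ℝ) * L) ^ 2 := by ring
  -- first term
  have hE1 : Real.exp ((K * G : ℕ) * (K * w + 4 * (K * (22 / 1000)))) / 2 ^ (K * K * G)
      ≤ Real.exp (-(294 / 1000 * Q)) := by
    have h1 : (2 : ℝ) ^ (K * K * G) = Real.exp ((K * K * G : ℕ) * Real.log 2) := by
      rw [Real.exp_nat_mul, Real.exp_log (by norm_num)]
    rw [h1, ← Real.exp_sub]
    apply Real.exp_le_exp.mpr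
    push_cast
    have h2 := Real.log_two_gt_d9
    have h3 : (K : ℝ) * G * (K * w + 4 * (K * (22 / 1000))) = (K * K * G) * (w + 88 / 1000) := by ring
    rw [h3]
    have h4 : (K : ℝ) * K * G * (w + 88 / 1000) ≤ (K * K * G) * (89 / 1000) :=
      mul_le_mul_of_nonneg_left (by linarith) (by positivity)
    have h5 : (K : ℝ) * K * G * (69 / 100) ≤ (K * K * G) * Real.log 2 :=
      mul_le_mul_of_nonneg_left (by linarith) (by positivity)
    linarith
  have hden : Real.exp ((K * L : ℕ) * (R * (L * A))) ≤ Real.exp (11 / 1000 * Q) := by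
    apply Real.exp_le_exp.mpr
    have h1 : (R : ℝ) * A ≤ K * (11 / 1000) := by
      have h2 : (R : ℝ) * A ≤ (100 * L * B + 2) * A := mul_le_mul_of_nonneg_right hR2 hA0
      have h3 : (100 * L * B + 2) * A = 100 * q + 2 * A := by rw [hq]; ring
      rw [h3] at h2
      linarith
    have h4 : ((K * L : ℕ) : ℝ) * (R * (L * A)) = ((K : ℝ) * L * L) * (R * A) := by push_cast; ring
    rw [h4]
    calc ((K : ℝ) * L * L) * (R * A) ≤ ((K : ℝ) * L * L) * (K * (11 / 1000)) :=
          mul_le_mul_of_nonneg_left h1 (by positivity)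
      _ = _ := by rw [hQ]; ring
  have hpow : (2 * (Real.exp K * (ℓ : ℝ) ^ K)) ^ (K * L) =
      2 ^ (K * L) * (Real.exp K * (ℓ : ℝ) ^ K) ^ (K * L) := mul_pow _ _ _
  have h2KL : (2 : ℝ) ^ (K * L) ≤ Real.exp (1 / 100 * Q) := by
    have h1 : (2 : ℝ) ^ (K * L) = Real.exp ((K * L : ℕ) * Real.log 2) := by
      rw [Real.exp_nat_mul, Real.exp_log (by norm_num)]
    rw [h1]
    apply Real.exp_le_exp.mpr
    push_cast
    have h2 := Real.log_two_lt_d9
    have h3 : (K : ℝ) * L * Real.log 2 ≤ K * L * 1 :=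
      mul_le_mul_of_nonneg_left (by linarith) (by positivity)
    have h4 : (K : ℝ) * L * 100 ≤ K * L * (K * L) :=
      mul_le_mul_of_nonneg_left (by linarith) (by positivity)
    have h5 : Q = K * L * (K * L) := by rw [hQ]; ring
    rw [h5]
    linarith
  rw [hpow] at hcore
  have h2pos : (0 : ℝ) < 2 ^ (K * K * G) := by positivity
  have hcore2 : (1 : ℝ) ≤ 2 ^ (K * L) * (((K * L).factorial : ℝ) * (Real.exp K * (ℓ : ℝ) ^ K) ^ (K * L)) *
      (Real.exp ((K * G : ℕ) * (K * w + 4 * (K * (22 / 1000)))) / 2 ^ (K * K * G)) *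
      Real.exp ((K * L : ℕ) * (R * (L * A))) := by
    have h1 : 2 ^ (K * L) * (((K * L).factorial : ℝ) * (Real.exp K * (ℓ : ℝ) ^ K) ^ (K * L)) *
      (Real.exp ((K * G : ℕ) * (K * w + 4 * (K * (22 / 1000)))) / 2 ^ (K * K * G)) *
      Real.exp ((K * L : ℕ) * (R * (L * A))) = (2 ^ (K * L) * (((K * L).factorial : ℝ) *
        (Real.exp K * (ℓ : ℝ) ^ K) ^ (K * L)) * Real.exp ((K * G : ℕ) * (K * w + 4 * (K * (22 / 1000)))) *
      Real.exp ((K * L : ℕ) * (R * (L * A)))) / 2 ^ (K * K * G) := by ring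
    rw [h1, le_div_iff₀ h2pos, one_mul]
    refine hcore.trans (le_of_eq ?_)
    ring
  have htot : 2 ^ (K * L) * (((K * L).factorial : ℝ) * (Real.exp K * (ℓ : ℝ) ^ K) ^ (K * L)) *
      (Real.exp ((K * G : ℕ) * (K * w + 4 * (K * (22 / 1000)))) / 2 ^ (K * K * G)) *
      Real.exp ((K * L : ℕ) * (R * (L * A)))
      ≤ Real.exp (1 / 100 * Q) * Real.exp (7 / 60 * Q) * Real.exp (-(294 / 1000 * Q)) *
        Real.exp (11 / 1000 * Q) := by
    apply mul_le_mul _ hden (Real.exp_pos _).le (by positivity)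
    apply mul_le_mul (mul_le_mul h2KL hF hF0 (Real.exp_pos _).le) hE1 (by positivity) (by positivity)
  have hlast : Real.exp (1 / 100 * Q) * Real.exp (7 / 60 * Q) * Real.exp (-(294 / 1000 * Q)) *
      Real.exp (11 / 1000 * Q) < 1 := by
    rw [← Real.exp_add, ← Real.exp_add, ← Real.exp_add, Real.exp_lt_one_iff]
    linarith
  linarith

end Pool.Agent.Work.MP_2738db_nt_Y.helper45
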